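import Mathlib
import Pool.Agent.V11104.XR5

/-!
# MP_2e5000_an: a weakly mixing measure driven to the zero point mass by the XOR automaton
-/

set_option autoImplicit false

open MeasureTheory Filter Topology

namespace Pool.Agent.Results.MP_2e5000_an.WeakMixingToZero

/-- The left shift on two-sided binary sequences. -/
def shift (x : ℤ → Bool) : ℤ → Bool := fun i => x (i + 1)

/-- The XOR cellular automaton `F(x)_i = x_i + x_{i+1} mod 2`. -/
def xorCA (x : ℤ → Bool) : ℤ → Bool := fun i => xor (x i) (x (i + 1))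

/-- Weak mixing: for all measurable `A, B`, the averages over `n < N` of
`|μ(A ∩ σ⁻ⁿ B) - μ(A) μ(B)|` tend to zero. -/
def IsWeaklyMixing (μ : Measure (ℤ → Bool)) : Prop :=
  ∀ A B : Set (ℤ → Bool), MeasurableSet A → MeasurableSet B →
    Tendsto (fun N : ℕ => (N : ℝ)⁻¹ * ∑ n ∈ Finset.range N,
      |μ.real (A ∩ shift^[n] ⁻¹' B) - μ.real A * μ.real B|) atTop (𝓝 0)

/-- There is a weakly mixing shift-invariant Borel probability measure `μ ≠ δ_0` on `{0,1}^ℤ` whose
images `Fⁿ(μ)` under the XOR automaton converge weak-* to `δ_0`. -/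
theorem result : ∃ μ : Measure (ℤ → Bool), IsProbabilityMeasure μ ∧
    MeasurePreserving shift μ μ ∧ IsWeaklyMixing μ ∧ μ ≠ Measure.dirac (fun _ => false) ∧
    ∀ f : C(ℤ → Bool, ℝ),
      Tendsto (fun n : ℕ => ∫ x, f x ∂(μ.map xorCA^[n])) atTop (𝓝 (f fun _ => false)) := by
  have hshift : ∀ n : ℕ, shift^[n] = Pool.Agent.V11104.XR.sh (n : ℤ) := by
    intro n
    induction n with
    | zero => funext x; exact (Pool.Agent.V11104.XR.sh_zero x).symm
    | succ n ih =>
      rw [Function.iterate_succ', ih]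
      funext x i
      show x (i + 1 + n) = x (i + ((n + 1 : ℕ) : ℤ))
      congr 1
      push_cast
      ring
  refine ⟨Pool.Agent.V11104.XR.lim, inferInstance, ?_, ?_, ?_, ?_⟩
  · have h1 := hshift 1
    rw [Function.iterate_one] at h1
    rw [h1]
    exact Pool.Agent.V11104.XR.lim_inv _
  · intro A B hA hB
    simp only [hshift]
    exact Pool.Agent.V11104.XR.lim_weakMixing A B hA hB
  · exact Pool.Agent.V11104.XR.lim_ne_dirac
  · exact Pool.Agent.V11104.XR.lim_tendsto

end Pool.Agent.Results.MP_2e5000_an.WeakMixingToZero
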